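import Mathlib
import Pool.Agent.Work.MP_f75e32_co.Defs
import Pool.Agent.Work.MP_f75e32_co.Proof

set_option autoImplicit false

open Pool.Agent.Work.MP_f75e32_co

namespace Pool.Agent.Results.MP_f75e32_co.RotationIdentity

/-- For every `n ≥ 2` and every `J ⊆ [n-2]`, the quasisymmetric functions of the multisets
`C_n D_{n-1,J}⁻¹` and `D_{n-1,J}⁻¹ C_n` are equal. -/
theorem result (n : ℕ) (hn : 2 ≤ n) (J : Finset ℕ) (hJ : J ⊆ Finset.Icc 1 (n - 2)) :
    QSym (mulMultiset (cyclicGroup n) (invDescentClass n J))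
      = QSym (mulMultiset (invDescentClass n J) (cyclicGroup n)) := by
  obtain ⟨m, rfl⟩ : ∃ m, n = m + 1 := ⟨n - 1, by omega⟩
  exact rotation_identity m J

end Pool.Agent.Results.MP_f75e32_co.RotationIdentity
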